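import Pool.Agent.Q212.SV6

/-!
# Embeddability in the Tychonoff cube does not imply countable choice for finite sets

The model is the second Cohen model: for every element of `ℕ × {0, 1}` we add an infinite set of
mutually generic Cohen reals, the group consists of the permutations of `ℕ × {0, 1}` that preserve
the first coordinate, together with the permutations of the Cohen reals of one element, and
supports are finite. The family of the pairs `{(n, 0), (n, 1)}` has no choice function.

In this model every set is the image of a class of pairs of an ordinal and a set of natural
numbers: a set with name `τ` is covered by the images of the function with the name consisting of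
all pairs of (the pair of the index of `x` in `τ` and the image under `g` of the support of `x`,
coded by a set of natural numbers) and the image of `x` under `g`, for all `g` in the group.

Let `X` be compact and metrizable, and let `F` be such a function for `X`. For every `T ⊆ ℕ` and
every `k` the ordinals `a` such that `F (a, T)` is in `X` and has distance at least `1 / (k + 1)`
from all `F (b, T)` with earlier chosen `b < a` form a finite set, as `X` has a finite cover by
balls of radius `1 / (2 (k + 1))`. So the values at these ordinals are indexed by triples
`(T, k, j)`, where `j` is a natural number (the position of `a`), hence by real numbers, and they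
are dense in `X`. If `p` is a function from a set of reals to a dense subset of the metric space
`X`, then the map that sends `x` to the function `z ↦ min (1, d (x, p (z)))` is an embedding of `X`
in the Tychonoff cube.
-/

set_option autoImplicit false

namespace Pool.Agent.Results.MP_d9473e_lc.CubeWithoutChoice

open Pool.Agent.W868 Pool.Agent.Q211.FS Pool.Agent.Q212.SV
open ZFSet (pair)

/-- There is a countable transitive model of ZF in which every compact metrizable space is
embeddable in the Tychonoff cube with the exponent of the reals, but a denumerable family `A` of
two-element sets has no choice function. -/
theorem result : ∃ M : Set ZFSet.{0}, M.Countable ∧ IsZF M ∧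
    (∀ X ∈ M, ∀ τ ∈ M, MetrizableIn M X τ → CompactIn M X τ → EmbedsInCube M X τ) ∧
    ∃ A ∈ M, (∃ f ∈ M, IsBij ZFSet.omega A f) ∧ (∀ s ∈ A, ∃ u v, u ≠ v ∧ s = {u, v}) ∧
      ¬ ∃ c ∈ M, ∀ s ∈ A, ∃ z ∈ s, ∀ w, pair s w ∈ c ↔ w = z :=
  main

end Pool.Agent.Results.MP_d9473e_lc.CubeWithoutChoice
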